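import Pool.Agent.Helper20.FR.Spec

/-! Part P17 of the FR blueprint (MP_3c0690_nt): Liouville's inequality. -/

open Polynomial Filter

set_option linter.unusedSectionVars false

namespace Pool.Agent.Helper51.FR.P17

open Pool.Agent.Helper20.FR

universe u

variable {k : Type u} [Field k]

/-- the companion matrix scaled by the leading coefficient -/
noncomputable def Cm (f : k[X][X]) : Matrix (Fin f.natDegree) (Fin f.natDegree) k[X] :=
  Matrix.of fun i j => if (j : ℕ) + 1 < f.natDegree then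
    (if (i : ℕ) = j + 1 then f.leadingCoeff else 0) else - f.coeff i

/-- `(1, ξ, …)` -/
noncomputable def rho (ξ : LaurentSeries k) (d : ℕ) : Fin d → LaurentSeries k := fun i => ξ ^ (i : ℕ)

lemma rho_Cm (ξ : LaurentSeries k) (f : k[X][X]) (hf : ev ξ f = 0) :
    Matrix.vecMul (rho ξ f.natDegree) ((Cm f).map iot) =
      (iot f.leadingCoeff * ξ) • rho ξ f.natDegree := by
  funext j
  simp only [Matrix.vecMul, dotProduct, rho, Matrix.map_apply, Cm, Matrix.of_apply, Pi.smul_apply,
    smul_eq_mul]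
  by_cases hj : (j : ℕ) + 1 < f.natDegree
  · simp only [hj, if_true]
    rw [Finset.sum_eq_single (⟨(j : ℕ) + 1, hj⟩ : Fin f.natDegree)]
    · simp
      ring
    · intro i _ hi
      have : ¬ ((i : ℕ) = j + 1) := fun h => hi (Fin.ext h)
      simp [this]
    · intro h
      exact absurd (Finset.mem_univ _) h
  · simp only [hj, if_false, map_neg, mul_neg, Finset.sum_neg_distrib]
    have hd : f.natDegree = (j : ℕ) + 1 := by have := j.2; omega
    have h1 : ∑ i : Fin f.natDegree, ξ ^ (i : ℕ) * iot (f.coeff i) =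
        ∑ i ∈ Finset.range f.natDegree, iot (f.coeff i) * ξ ^ i := by
      rw [← Fin.sum_univ_eq_sum_range (fun i => iot (f.coeff i) * ξ ^ i)]
      exact Finset.sum_congr rfl fun i _ => mul_comm _ _
    rw [h1]
    rw [ev, eval₂_eq_sum_range, Finset.sum_range_succ] at hf
    rw [neg_eq_of_add_eq_zero_right hf, Polynomial.leadingCoeff]
    have h2 : ξ ^ f.natDegree = ξ * ξ ^ (j : ℕ) := by
      conv_lhs => rw [hd]
      rw [pow_succ]; ring
    rw [h2]
    ring

lemma rho_Cm_pow (ξ : LaurentSeries k) (f : k[X][X]) (hf : ev ξ f = 0) (i : ℕ) :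
    Matrix.vecMul (rho ξ f.natDegree) (((Cm f).map iot) ^ i) =
      (iot f.leadingCoeff * ξ) ^ i • rho ξ f.natDegree := by
  induction i with
  | zero => simp
  | succ i ih =>
    rw [pow_succ, ← Matrix.vecMul_vecMul, ih, Matrix.smul_vecMul, rho_Cm ξ f hf, smul_smul,
      pow_succ]

/-- multiplication by `f_d^n P(ξ)` -/
noncomputable def Mm (f : k[X][X]) (n : ℕ) (P : k[X][X]) :
    Matrix (Fin f.natDegree) (Fin f.natDegree) k[X] :=
  ∑ i ∈ Finset.range (n + 1), P.coeff i • (f.leadingCoeff ^ (n - i) • (Cm f) ^ i)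

lemma Mm_map (f : k[X][X]) (n : ℕ) (P : k[X][X]) :
    (Mm f n P).map iot = ∑ i ∈ Finset.range (n + 1), iot (P.coeff i) •
      (iot f.leadingCoeff ^ (n - i) • ((Cm f).map iot) ^ i) := by
  have h := map_sum (iot : k[X] →+* LaurentSeries k).mapMatrix
    (fun i => P.coeff i • (f.leadingCoeff ^ (n - i) • (Cm f) ^ i)) (Finset.range (n + 1))
  have h0 : (Mm f n P).map iot = (iot : k[X] →+* LaurentSeries k).mapMatrix (Mm f n P) := rfl
  rw [h0, Mm, h]
  refine Finset.sum_congr rfl fun i _ => ?_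
  have h2 : ((Cm f).map iot) ^ i = (iot : k[X] →+* LaurentSeries k).mapMatrix ((Cm f) ^ i) := by
    rw [map_pow]; rfl
  rw [h2]
  ext1 a b
  simp

lemma rho_Mm (ξ : LaurentSeries k) (f : k[X][X]) (hf : ev ξ f = 0) (n : ℕ) (P : k[X][X])
    (hP : P.natDegree ≤ n) :
    Matrix.vecMul (rho ξ f.natDegree) ((Mm f n P).map iot) =
      (iot f.leadingCoeff ^ n * ev ξ P) • rho ξ f.natDegree := by
  rw [Mm_map, Matrix.vecMul_sum, ev, eval₂_eq_sum_range' iot (Nat.lt_succ_of_le hP) ξ,
    Finset.mul_sum, Finset.sum_smul]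
  refine Finset.sum_congr rfl fun i hi => ?_
  rw [Matrix.vecMul_smul, Matrix.vecMul_smul, rho_Cm_pow ξ f hf, smul_smul, smul_smul]
  congr 1
  have : i ≤ n := by
    have := Finset.mem_range.1 hi
    omega
  obtain ⟨m, rfl⟩ := Nat.exists_eq_add_of_le this
  rw [Nat.add_sub_cancel_left, pow_add, mul_pow]
  ring

/-- the polynomial with coefficient vector `v` -/
noncomputable def ofVec {d : ℕ} (v : Fin d → k[X]) : k[X][X] :=
  ∑ i : Fin d, monomial (i : ℕ) (v i)

lemma ofVec_coeff {d : ℕ} (v : Fin d → k[X]) (i : Fin d) : (ofVec v).coeff i = v i := by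
  rw [ofVec, finsetSum_coeff, Finset.sum_eq_single i]
  · simp
  · intro j _ hj
    rw [coeff_monomial, if_neg]
    exact fun h => hj (Fin.ext h)
  · intro h; exact absurd (Finset.mem_univ _) h

lemma ofVec_natDegree_lt {d : ℕ} (hd : 0 < d) (v : Fin d → k[X]) : (ofVec v).natDegree < d := by
  have : (ofVec v).natDegree ≤ d - 1 := by
    rw [ofVec]
    apply natDegree_sum_le_of_forall_le
    intro i _
    refine (natDegree_monomial_le _).trans ?_
    have := i.2
    omega
  omega

lemma ev_ofVec (ξ : LaurentSeries k) {d : ℕ} (v : Fin d → k[X]) :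
    ev ξ (ofVec v) = ∑ i : Fin d, ξ ^ (i : ℕ) * iot (v i) := by
  rw [ev, ofVec, eval₂_finsetSum]
  refine Finset.sum_congr rfl fun i _ => ?_
  rw [eval₂_monomial, mul_comm]

lemma det_Mm_ne_zero (ξ : LaurentSeries k) (f : k[X][X]) (hd : 0 < f.natDegree)
    (hf : ev ξ f = 0)
    (hmin : ∀ g : k[X][X], g ≠ 0 → ev ξ g = 0 → f.natDegree ≤ g.natDegree) (n : ℕ) (P : k[X][X])
    (hP : P.natDegree ≤ n) (hP' : ev ξ P ≠ 0) : (Mm f n P).det ≠ 0 := by
  intro hdet
  rw [← Matrix.exists_mulVec_eq_zero_iff] at hdet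
  obtain ⟨v, hv, hv'⟩ := hdet
  have hlc : iot f.leadingCoeff ≠ (0 : LaurentSeries k) := by
    rw [Ne, iot_eq_zero, leadingCoeff_eq_zero]
    rintro rfl
    simp at hd
  have h1 : ((Mm f n P).map iot).mulVec (fun i => iot (v i)) = 0 := by
    funext i
    have := congrFun hv' i
    have h2 := congrArg (iot : k[X] →+* LaurentSeries k) this
    simpa [Matrix.mulVec, dotProduct] using h2
  have h2 : (iot f.leadingCoeff ^ n * ev ξ P) *
      (rho ξ f.natDegree ⬝ᵥ fun i => iot (v i)) = 0 := by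
    have h3 : Matrix.vecMul (rho ξ f.natDegree) ((Mm f n P).map iot) ⬝ᵥ (fun i => iot (v i)) =
        rho ξ f.natDegree ⬝ᵥ ((Mm f n P).map iot).mulVec (fun i => iot (v i)) :=
      (Matrix.dotProduct_mulVec _ _ _).symm
    rw [h1, rho_Mm ξ f hf n P hP, dotProduct_zero, smul_dotProduct, smul_eq_mul] at h3
    exact h3
  have h3 : ev ξ (ofVec v) = 0 := by
    rw [ev_ofVec]
    exact (mul_eq_zero.1 h2).resolve_left (mul_ne_zero (pow_ne_zero _ hlc) hP')
  have h4 : ofVec v ≠ 0 := by
    intro h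
    apply hv
    funext i
    rw [← ofVec_coeff v i, h]
    simp
  have h5 := hmin _ h4 h3
  have h6 := ofVec_natDegree_lt hd v
  omega

lemma natDegree_coeff_le_Hp (P : k[X][X]) (i : ℕ) : (P.coeff i).natDegree ≤ Hp P := by
  by_cases h : i ∈ P.support
  · exact Finset.le_sup (f := fun i => (P.coeff i).natDegree) h
  · rw [notMem_support_iff.1 h]; simp

/-- P17 -/
theorem li_thm : S_LI.{u} := by
  intro k _ ξ f hf hfξ hmin n
  have hd : 0 < f.natDegree := by
    rw [Nat.pos_iff_ne_zero]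
    intro h0
    rw [natDegree_eq_zero] at h0
    obtain ⟨a, rfl⟩ := h0
    rw [ev, eval₂_C, iot_eq_zero] at hfξ
    exact hf (by rw [hfξ, C_0])
  have hlc : iot f.leadingCoeff ≠ (0 : LaurentSeries k) := by
    rw [Ne, iot_eq_zero, leadingCoeff_eq_zero]
    exact hf
  -- bounds of the entries of the fixed matrices
  have hb : ∀ i : ℕ, ∃ b : ℕ, MLe (iot f.leadingCoeff ^ (n - i) • ((Cm f).map iot) ^ i) (b : ℝ) :=
    fun i => exists_MLe _
  choose b hb using hb
  set c₀ : ℕ := (Finset.range (n + 1)).sup b with hc₀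
  have hM : ∀ P : k[X][X], MLe ((Mm f n P).map iot) ((Hp P : ℝ) + c₀) := by
    intro P i j
    rw [Mm_map, Matrix.sum_apply]
    refine DLe.sum _ fun l hl => ?_
    rw [Matrix.smul_apply, smul_eq_mul]
    refine DLe.mul ((DLe_iot _).mono ?_) ((hb l i j).mono ?_)
    · exact_mod_cast natDegree_coeff_le_Hp P l
    · exact_mod_cast Finset.le_sup (f := b) hl
  -- bound of the powers of ξ
  set x₀ : ℕ := (dg ξ).toNat with hx₀
  have hx : DLe ξ (x₀ : ℝ) := (DLe_self ξ).mono (by exact_mod_cast Int.self_le_toNat _)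
  have hxp : ∀ i : Fin f.natDegree, DLe (ξ ^ (i : ℕ)) ((f.natDegree : ℝ) * x₀) := by
    intro i
    refine (hx.pow _).mono ?_
    have : ((i : ℕ) : ℝ) ≤ f.natDegree := by exact_mod_cast i.2.le
    exact mul_le_mul_of_nonneg_right this (Nat.cast_nonneg _)
  refine ⟨n * dg (iot f.leadingCoeff : LaurentSeries k) + (f.natDegree : ℝ) * x₀ +
    ((f.natDegree : ℝ) - 1) * c₀, fun P hP hP' => ?_⟩
  have hdet := det_Mm_ne_zero ξ f hd hfξ hmin n P hP hP'
  -- adjugate
  set MK := (Mm f n P).map (iot : k[X] →+* LaurentSeries k) with hMK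
  have hdetK : MK.det = iot (Mm f n P).det := by
    rw [RingHom.map_det]; rfl
  have hadj : ∀ i j, DLe (MK.adjugate i j) (((f.natDegree : ℝ) - 1) * ((Hp P : ℝ) + c₀)) := by
    intro i j
    rw [Matrix.adjugate_apply]
    have h := DLe_det (M := MK.updateRow j (Pi.single i 1))
      (c := fun a => if a = j then 0 else (Hp P : ℝ) + c₀) ?_
    · refine h.mono (le_of_eq ?_)
      rw [← Finset.add_sum_erase Finset.univ _ (Finset.mem_univ j)]
      simp only [if_true, zero_add]
      rw [Finset.sum_congr rfl (g := fun _ => (Hp P : ℝ) + c₀)]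
      · rw [Finset.sum_const, Finset.card_erase_of_mem (Finset.mem_univ j), Finset.card_univ,
          Fintype.card_fin, nsmul_eq_mul, Nat.cast_sub (by omega)]
        simp
      · intro a ha
        rw [if_neg (Finset.ne_of_mem_erase ha)]
    · intro a b'
      by_cases ha : a = j
      · subst ha
        rw [Matrix.updateRow_self, if_pos rfl]
        by_cases hb' : b' = i
        · subst hb'
          rw [Pi.single_eq_same]
          exact DLe_one
        · rw [Pi.single_eq_of_ne hb']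
          exact DLe_zero _
      · rw [Matrix.updateRow_ne ha, if_neg ha]
        exact hM P a b'
  -- the main identity
  have hid : iot (Mm f n P).det = (iot f.leadingCoeff ^ n * ev ξ P) *
      ∑ i : Fin f.natDegree, ξ ^ (i : ℕ) * MK.adjugate i ⟨0, hd⟩ := by
    have h1 : Matrix.vecMul (Matrix.vecMul (rho ξ f.natDegree) MK) MK.adjugate =
        MK.det • rho ξ f.natDegree := by
      rw [Matrix.vecMul_vecMul, Matrix.mul_adjugate, Matrix.vecMul_smul, Matrix.vecMul_one]
    rw [hMK, rho_Mm ξ f hfξ n P hP, ← hMK, Matrix.smul_vecMul] at h1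
    have h2 := congrFun h1 ⟨0, hd⟩
    simp only [Pi.smul_apply, smul_eq_mul, rho, pow_zero, mul_one, Matrix.vecMul, dotProduct] at h2
    rw [← hdetK, ← h2]
  set S := ∑ i : Fin f.natDegree, ξ ^ (i : ℕ) * MK.adjugate i ⟨0, hd⟩ with hS
  have hSne : S ≠ 0 := by
    intro h
    rw [h, mul_zero, iot_eq_zero] at hid
    exact hdet hid
  have hSdeg : (dg S : ℝ) ≤
      (f.natDegree : ℝ) * x₀ + ((f.natDegree : ℝ) - 1) * ((Hp P : ℝ) + c₀) := by
    rw [← DLe_iff hSne]
    exact DLe.sum _ fun i _ => (hxp i).mul (hadj i _)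
  have hdg : (0 : ℤ) ≤ dg (iot (Mm f n P).det : LaurentSeries k) := by
    rw [dg_iot hdet]; positivity
  rw [hid, dg_mul (mul_ne_zero (pow_ne_zero _ hlc) hP') hSne,
    dg_mul (pow_ne_zero _ hlc) hP', dg_pow] at hdg
  have hdg' : (0 : ℝ) ≤ n * dg (iot f.leadingCoeff : LaurentSeries k) + dg (ev ξ P) + dg S := by
    exact_mod_cast hdg
  linarith

end Pool.Agent.Helper51.FR.P17
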