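import Pool.Agent.Helper20.FR.Spec

/-! Part P8 of the FR blueprint (MP_3c0690_nt): the space spanned by the near-optimal vectors and
its Frobenius orbit. -/

open Polynomial Filter

set_option linter.unusedSectionVars false

namespace Pool.Agent.Helper51.FR.P8

open Pool.Agent.Helper20.FR

universe u

section basic

variable {k : Type u} [Field k] {N E : Type} [Fintype N] [Fintype E]

/-- Frobenius step on vectors -/
noncomputable def Phi (A : Matrix N N k[X]) (r : ℕ) (x : N → k[X]) : N → k[X] :=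
  A.mulVec fun i => x i ^ r

/-- Frobenius step on matrices -/
noncomputable def PhiM {κ : ℕ} (A : Matrix N N k[X]) (r : ℕ) (X : Matrix N (Fin κ) k[X]) :
    Matrix N (Fin κ) k[X] := A * X.map fun z => z ^ r

lemma PhiM_col {κ : ℕ} (A : Matrix N N k[X]) (r : ℕ) (X : Matrix N (Fin κ) k[X]) (b : Fin κ) :
    (fun i => PhiM A r X i b) = Phi A r fun i => X i b := by
  funext i
  simp [PhiM, Phi, Matrix.mul_apply, Matrix.mulVec, dotProduct]

lemma GG_mono {U : Matrix E N (LaurentSeries k)} {r : ℕ} {σ w ε ε' : ℝ} {j : ℕ} {x : N → k[X]}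
    (h : GG U r σ w ε j x) (he : ε ≤ ε') : GG U r σ w ε' j x := by
  have hr : (0 : ℝ) ≤ (r : ℝ) ^ j := by positivity
  refine ⟨h.1.mono ?_, h.2.mono ?_⟩
  · exact mul_le_mul_of_nonneg_right (by linarith) hr
  · exact mul_le_mul_of_nonneg_right (by linarith) hr

/-- the predicate `P κ ε j` -/
def PP (U : Matrix E N (LaurentSeries k)) (r : ℕ) (σ w : ℝ) (κ : ℕ) (ε : ℝ) (j : ℕ) : Prop :=
  ∃ Z : Matrix N (Fin κ) k[X], LI Z ∧ ∀ b, GG U r σ w ε j fun i => Z i b

lemma PP_mono {U : Matrix E N (LaurentSeries k)} {r : ℕ} {σ w ε ε' : ℝ} {j κ : ℕ}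
    (h : PP U r σ w κ ε j) (he : ε ≤ ε') : PP U r σ w κ ε' j := by
  obtain ⟨Z, hZ, hZ'⟩ := h
  exact ⟨Z, hZ, fun b => GG_mono (hZ' b) he⟩

lemma GG_rescale {U : Matrix E N (LaurentSeries k)} {r : ℕ} (hr : 0 < r) {σ w ε : ℝ} {j j₂ : ℕ}
    {x : N → k[X]} (h : GG U r σ w (ε / (r : ℝ) ^ j₂) (j₂ + j) x) :
    GG U r (σ * (r : ℝ) ^ j₂) w ε j x := by
  have hr' : (0 : ℝ) < (r : ℝ) ^ j₂ := by positivity
  refine ⟨?_, ?_⟩
  · convert h.1 using 1
    rw [pow_add]
    field_simp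
  · convert h.2 using 1
    rw [pow_add]
    field_simp

end basic

section frob

variable {k : Type u} [Field k] {p : ℕ} [Fact p.Prime] [CharP k p] {s : ℕ}
  {N E : Type} [Fintype N] [Fintype E]

lemma Uv_Phi {U : Matrix E N (LaurentSeries k)} {A : Matrix N N k[X]}
    {Γ : Matrix E E (LaurentSeries k)}
    (hU : U * A.map iot = Γ * U.map (fun z => z ^ p ^ s)) (x : N → k[X]) :
    Uv U (Phi A (p ^ s) x) = Γ.mulVec fun e => Uv U x e ^ p ^ s := by
  have h1 : (fun i => iot (Phi A (p ^ s) x i)) = (A.map iot).mulVec fun i => iot (x i) ^ p ^ s := by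
    funext i
    simp [Phi, Matrix.mulVec, dotProduct, map_sum]
  have h2 : (U.map (fun z => z ^ p ^ s)).mulVec (fun i => iot (x i) ^ p ^ s) =
      fun e => Uv U x e ^ p ^ s := by
    funext e
    simp only [Uv, Matrix.mulVec, dotProduct, Matrix.map_apply]
    rw [sum_pow_char_pow]
    simp [mul_pow]
  rw [Uv, h1, Matrix.mulVec_mulVec, hU, ← Matrix.mulVec_mulVec, h2]

lemma GG_step {U : Matrix E N (LaurentSeries k)} {A : Matrix N N k[X]}
    {Γ : Matrix E E (LaurentSeries k)}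
    (hU : U * A.map iot = Γ * U.map (fun z => z ^ p ^ s)) {c : ℝ} (hA : MLe (A.map iot) c)
    (hΓ : MLe Γ c) {σ w ε : ℝ} {j : ℕ} {x : N → k[X]} (h : GG U (p ^ s) σ w ε j x) :
    GG U (p ^ s) σ w (ε + c / ((p ^ s : ℕ) : ℝ) ^ (j + 1)) (j + 1) (Phi A (p ^ s) x) := by
  have hp : 0 < p ^ s := pow_pos (Fact.out : p.Prime).pos s
  have hr' : (0 : ℝ) < ((p ^ s : ℕ) : ℝ) := by exact_mod_cast hp
  have hr'' : (0 : ℝ) < ((p ^ s : ℕ) : ℝ) ^ (j + 1) := by positivity
  have hne : ((p ^ s : ℕ) : ℝ) ^ (j + 1) ≠ 0 := hr''.ne'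
  refine ⟨?_, ?_⟩
  · have h1 : (fun i => iot (Phi A (p ^ s) x i)) =
        (A.map iot).mulVec fun i => iot (x i) ^ p ^ s := by
      funext i
      simp [Phi, Matrix.mulVec, dotProduct, map_sum]
    rw [h1]
    have h2 : VLe (fun i => iot (x i) ^ p ^ s)
        (((p ^ s : ℕ) : ℝ) * ((σ + ε) * ((p ^ s : ℕ) : ℝ) ^ j)) := fun i => (h.1 i).pow _
    refine (VLe.mulVec hA h2).mono (le_of_eq ?_)
    rw [add_mul, add_mul, add_mul, div_mul_cancel₀ _ hne, pow_succ]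
    ring
  · rw [Uv_Phi hU]
    have h2 : VLe (fun e => Uv U x e ^ p ^ s)
        (((p ^ s : ℕ) : ℝ) * (-(w * σ - ε) * ((p ^ s : ℕ) : ℝ) ^ j)) := fun i => (h.2 i).pow _
    refine (VLe.mulVec hΓ h2).mono (le_of_eq ?_)
    have : -(w * σ - (ε + c / ((p ^ s : ℕ) : ℝ) ^ (j + 1))) =
        -(w * σ - ε) + c / ((p ^ s : ℕ) : ℝ) ^ (j + 1) := by ring
    rw [this, add_mul, div_mul_cancel₀ _ hne, pow_succ]
    ring

lemma GG_iter (hs : 1 ≤ s) {U : Matrix E N (LaurentSeries k)} {A : Matrix N N k[X]}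
    {Γ : Matrix E E (LaurentSeries k)}
    (hU : U * A.map iot = Γ * U.map (fun z => z ^ p ^ s)) {c : ℝ} (hc : 0 ≤ c)
    (hA : MLe (A.map iot) c)
    (hΓ : MLe Γ c) {σ w ε : ℝ} {j : ℕ} {x : N → k[X]} (h : GG U (p ^ s) σ w ε j x) (n : ℕ) :
    GG U (p ^ s) σ w (ε + c / ((p ^ s : ℕ) : ℝ) ^ j - c / ((p ^ s : ℕ) : ℝ) ^ (j + n)) (j + n)
      ((Phi A (p ^ s))^[n] x) := by
  have hp2 : 2 ≤ p ^ s := by
    calc 2 ≤ p := (Fact.out : p.Prime).two_le
      _ = p ^ 1 := (pow_one p).symm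
      _ ≤ p ^ s := Nat.pow_le_pow_right (Fact.out : p.Prime).pos hs
  have hr' : (2 : ℝ) ≤ ((p ^ s : ℕ) : ℝ) := by exact_mod_cast hp2
  induction n with
  | zero => simpa using h
  | succ n ih =>
    rw [Function.iterate_succ_apply']
    have hst := GG_step hU hA hΓ ih
    refine GG_mono hst ?_
    have hpos : (0 : ℝ) < ((p ^ s : ℕ) : ℝ) ^ (j + (n + 1)) := by positivity
    have h1 : 2 * (c / ((p ^ s : ℕ) : ℝ) ^ (j + (n + 1))) ≤ c / ((p ^ s : ℕ) : ℝ) ^ (j + n) := by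
      have h3 : ((p ^ s : ℕ) : ℝ) ^ (j + (n + 1)) =
          ((p ^ s : ℕ) : ℝ) * ((p ^ s : ℕ) : ℝ) ^ (j + n) := by
        rw [← add_assoc, pow_succ]; ring
      have h4 : (0 : ℝ) < ((p ^ s : ℕ) : ℝ) ^ (j + n) := by positivity
      have h5 : c / ((p ^ s : ℕ) : ℝ) ^ (j + n) =
          ((p ^ s : ℕ) : ℝ) * (c / ((p ^ s : ℕ) : ℝ) ^ (j + (n + 1))) := by
        rw [h3]
        field_simp
      rw [h5]
      exact mul_le_mul_of_nonneg_right hr' (by positivity)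
    have h2 : ε + c / ((p ^ s : ℕ) : ℝ) ^ j - c / ((p ^ s : ℕ) : ℝ) ^ (j + n) +
        c / ((p ^ s : ℕ) : ℝ) ^ (j + (n + 1)) ≤
        ε + c / ((p ^ s : ℕ) : ℝ) ^ j - c / ((p ^ s : ℕ) : ℝ) ^ (j + (n + 1)) := by linarith
    exact h2

lemma mnr_map_pow {κ : ℕ} (X : Matrix N (Fin κ) k[X]) (f : Fin κ → N) :
    mnr (X.map fun z => z ^ p ^ s) f = mnr X f ^ p ^ s := by
  rw [mnr, mnr, ← iterateFrobenius_def, RingHom.map_det]
  congr 1

lemma LI_PhiM [DecidableEq N] (hMN : S_MN.{u}) {A : Matrix N N k[X]} (hA : A.det ≠ 0) {κ : ℕ}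
    {X : Matrix N (Fin κ) k[X]} (h : LI X) : LI (PhiM A (p ^ s) X) := by
  have h1 : LI (X.map fun z => z ^ p ^ s) := by
    rw [hMN k N κ] at h ⊢
    obtain ⟨f, hf⟩ := h
    refine ⟨f, ?_⟩
    rw [mnr_map_pow]
    exact pow_ne_zero _ hf
  have h2 := LinearIndependent.map' h1 A.mulVecLin (by
    rw [LinearMap.ker_eq_bot']
    intro v hv
    exact Matrix.eq_zero_of_mulVec_eq_zero hA hv)
  have h3 : (fun b : Fin κ => (fun i => PhiM A (p ^ s) X i b : N → k[X])) =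
      (A.mulVecLin ∘ fun b : Fin κ => (fun i => (X.map fun z => z ^ p ^ s) i b : N → k[X])) := by
    funext b
    rw [PhiM_col]
    rfl
  rw [LI, h3]
  exact h2

lemma iter_PhiM_col {κ : ℕ} (A : Matrix N N k[X]) (r : ℕ) (X : Matrix N (Fin κ) k[X])
    (b : Fin κ) (n : ℕ) :
    (fun i => ((PhiM A r)^[n] X) i b) = (Phi A r)^[n] fun i => X i b := by
  induction n with
  | zero => rfl
  | succ n ih =>
    rw [Function.iterate_succ_apply', Function.iterate_succ_apply', PhiM_col, ih]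

lemma LI_iter [DecidableEq N] (hMN : S_MN.{u}) {A : Matrix N N k[X]} (hA : A.det ≠ 0) {κ : ℕ}
    {X : Matrix N (Fin κ) k[X]} (h : LI X) (n : ℕ) : LI ((PhiM A (p ^ s))^[n] X) := by
  induction n with
  | zero => exact h
  | succ n ih =>
    rw [Function.iterate_succ_apply']
    exact LI_PhiM hMN hA ih

end frob

section dep

variable {k : Type u} [Field k] {N : Type} [Fintype N]

/-- if each column of `Z` is dependent on the columns of `Y`, then `a • Z = Y * Q` -/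
lemma exists_aQ {κ : ℕ} {Y Z : Matrix N (Fin κ) k[X]} (hY : LI Y) (hZ : LI Z)
    (h : ∀ b : Fin κ, ¬ LI (Matrix.of fun i (c : Fin (κ + 1)) =>
      Fin.cons (α := fun _ => k[X]) (Z i b) (fun l => Y i l) c)) :
    ∃ (a : k[X]) (Q : Matrix (Fin κ) (Fin κ) k[X]), a ≠ 0 ∧ Q.det ≠ 0 ∧ a • Z = Y * Q := by
  have key : ∀ b : Fin κ, ∃ (g0 : k[X]) (g : Fin κ → k[X]), g0 ≠ 0 ∧
      ∀ i, g0 * Z i b = ∑ l, Y i l * g l := by
    intro b
    have hb := h b
    rw [LI, Fintype.not_linearIndependent_iff] at hb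
    obtain ⟨g, hg, hg'⟩ := hb
    have hg2 : ∀ i, g 0 * Z i b + ∑ l : Fin κ, g l.succ * Y i l = 0 := by
      intro i
      have := congrFun hg i
      rw [Fin.sum_univ_succ] at this
      simpa using this
    refine ⟨g 0, fun l => -g l.succ, ?_, ?_⟩
    · intro h0
      obtain ⟨i, hi⟩ := hg'
      have hz : ∀ l : Fin κ, g l.succ = 0 := by
        have hY' := hY
        rw [LI, Fintype.linearIndependent_iff] at hY'
        apply hY' (fun l => g l.succ)
        funext i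
        have := hg2 i
        rw [h0, zero_mul, zero_add] at this
        simpa using this
      apply hi
      refine Fin.cases h0 hz i
    · intro i
      have := hg2 i
      rw [eq_neg_of_add_eq_zero_left this, ← Finset.sum_neg_distrib]
      refine Finset.sum_congr rfl fun l _ => ?_
      ring
  choose g0 g hg0 hg using key
  refine ⟨∏ b, g0 b, Matrix.of fun i b => g b i * ∏ b' ∈ Finset.univ.erase b, g0 b', ?_, ?_, ?_⟩
  · exact Finset.prod_ne_zero_iff.2 fun b _ => hg0 b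
  · -- the determinant
    have hYQ : (∏ b, g0 b) • Z = Y * Matrix.of fun i b => g b i * ∏ b' ∈ Finset.univ.erase b, g0 b' := by
      ext1 i b
      simp only [Matrix.smul_apply, Matrix.mul_apply, Matrix.of_apply, smul_eq_mul]
      rw [← Finset.mul_prod_erase Finset.univ g0 (Finset.mem_univ b)]
      have := hg b i
      calc g0 b * (∏ x ∈ Finset.univ.erase b, g0 x) * Z i b
          = (g0 b * Z i b) * ∏ x ∈ Finset.univ.erase b, g0 x := by ring
        _ = (∑ l, Y i l * g b l) * ∏ x ∈ Finset.univ.erase b, g0 x := by rw [this]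
        _ = _ := by
          rw [Finset.sum_mul]
          refine Finset.sum_congr rfl fun l _ => ?_
          ring
    intro hdet
    rw [← Matrix.exists_mulVec_eq_zero_iff] at hdet
    obtain ⟨v, hv, hv'⟩ := hdet
    have h1 : ((∏ b, g0 b) • Z).mulVec v = 0 := by
      rw [hYQ, ← Matrix.mulVec_mulVec, hv', Matrix.mulVec_zero]
    have hprod : (∏ b, g0 b) ≠ 0 := Finset.prod_ne_zero_iff.2 fun b _ => hg0 b
    rw [Matrix.smul_mulVec] at h1
    have h2 : Z.mulVec v = 0 := (smul_eq_zero.1 h1).resolve_left hprod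
    apply hv
    funext b
    have hZ' := hZ
    rw [LI, Fintype.linearIndependent_iff] at hZ'
    refine hZ' v ?_ b
    rw [← h2]
    funext i
    simp [Matrix.mulVec, dotProduct, mul_comm]
  · ext1 i b
    simp only [Matrix.smul_apply, Matrix.mul_apply, Matrix.of_apply, smul_eq_mul]
    rw [← Finset.mul_prod_erase Finset.univ g0 (Finset.mem_univ b)]
    have := hg b i
    calc g0 b * (∏ x ∈ Finset.univ.erase b, g0 x) * Z i b
        = (g0 b * Z i b) * ∏ x ∈ Finset.univ.erase b, g0 x := by ring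
      _ = (∑ l, Y i l * g b l) * ∏ x ∈ Finset.univ.erase b, g0 x := by rw [this]
      _ = _ := by
        rw [Finset.sum_mul]
        refine Finset.sum_congr rfl fun l _ => ?_
        ring

end dep

lemma LI_le_card {k : Type u} [Field k] {N : Type} [Fintype N] {κ : ℕ}
    {Z : Matrix N (Fin κ) k[X]} (h : LI Z) : κ ≤ Fintype.card N := by
  have := LinearIndependent.fintype_card_le_finrank h
  simpa using this

/-- P8 -/
theorem ns_thm (hMN : S_MN.{u}) : S_NS.{u} := by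
  intro k _ _ p _ _ s hs N E _ _ _ _ U A Γ hA hU σ w hσ hyp
  have hp2 : 2 ≤ p ^ s := by
    calc 2 ≤ p := (Fact.out : p.Prime).two_le
      _ = p ^ 1 := (pow_one p).symm
      _ ≤ p ^ s := Nat.pow_le_pow_right (Fact.out : p.Prime).pos hs
  have hr2 : (2 : ℝ) ≤ ((p ^ s : ℕ) : ℝ) := by exact_mod_cast hp2
  have hr1 : (1 : ℝ) < ((p ^ s : ℕ) : ℝ) := by linarith
  obtain ⟨c₁, hc₁⟩ := exists_MLe (A.map (iot : k[X] →+* LaurentSeries k))
  obtain ⟨c₂, hc₂⟩ := exists_MLe Γ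
  set c : ℝ := max (c₁ : ℝ) (c₂ : ℝ) with hc
  have hc0 : 0 ≤ c := le_max_of_le_left (Nat.cast_nonneg _)
  have hcA : MLe (A.map (iot : k[X] →+* LaurentSeries k)) c :=
    fun i j => (hc₁ i j).mono (le_max_left _ _)
  have hcΓ : MLe Γ c := fun i j => (hc₂ i j).mono (le_max_right _ _)
  -- the error tends to zero
  have hsmall : ∀ ε > 0, ∀ᶠ j : ℕ in atTop, c / ((p ^ s : ℕ) : ℝ) ^ j ≤ ε := by
    intro ε hε
    have h1 : Tendsto (fun j : ℕ => c / ((p ^ s : ℕ) : ℝ) ^ j) atTop (nhds 0) :=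
      (tendsto_pow_atTop_atTop_of_one_lt hr1).const_div_atTop c
    exact (h1.eventually (Iio_mem_nhds hε)).mono fun j hj => le_of_lt hj
  -- pushing forward
  have hpush : ∀ (κ : ℕ) (ε : ℝ) (j : ℕ) (X : Matrix N (Fin κ) k[X]),
      (∀ b, GG U (p ^ s) σ w ε j fun i => X i b) → ∀ δ, c / ((p ^ s : ℕ) : ℝ) ^ j ≤ δ → ∀ n,
      ∀ b, GG U (p ^ s) σ w (ε + δ) (j + n) fun i => ((PhiM A (p ^ s))^[n] X) i b := by
    intro κ ε j X hX δ hδ n b
    rw [iter_PhiM_col]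
    refine GG_mono (GG_iter hs hU hc0 hcA hcΓ (hX b) n) ?_
    have : 0 ≤ c / ((p ^ s : ℕ) : ℝ) ^ (j + n) := by positivity
    linarith
  -- choice of κ
  have hQ1 : ∀ ε > 0, ∃ᶠ j in atTop, PP U (p ^ s) σ w 1 ε j := by
    intro ε hε
    refine (hyp ε hε).mono ?_
    rintro j ⟨x, hx, hx'⟩
    refine ⟨Matrix.of fun i _ => x i, ?_, fun b => hx'⟩
    rw [LI, linearIndependent_unique_iff]
    exact hx
  obtain ⟨κ, hκ1, hQ, hnQ⟩ : ∃ κ : ℕ, 1 ≤ κ ∧ (∀ ε > 0, ∃ᶠ j in atTop, PP U (p ^ s) σ w κ ε j) ∧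
      ¬ (∀ ε > 0, ∃ᶠ j in atTop, PP U (p ^ s) σ w (κ + 1) ε j) := by
    by_contra hcon
    push Not at hcon
    have hall : ∀ n : ℕ, ∀ ε > 0, ∃ᶠ j in atTop, PP U (p ^ s) σ w (n + 1) ε j := by
      intro n
      induction n with
      | zero => exact hQ1
      | succ n ih => exact hcon (n + 1) (by omega) ih
    obtain ⟨j, Z, hZ, -⟩ := (hall (Fintype.card N) 1 one_pos).exists
    have := LI_le_card hZ
    omega
  push Not at hnQ
  obtain ⟨ε₀, hε₀, hnP⟩ := hnQ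
  have hev : ∀ ε > 0, ∀ᶠ j in atTop, PP U (p ^ s) σ w κ ε j := by
    intro ε hε
    obtain ⟨j₁, ⟨Z, hZ, hZ'⟩, hj₁⟩ := ((hQ (ε / 2) (by linarith)).and_eventually
      (hsmall (ε / 2) (by linarith))).exists
    filter_upwards [eventually_ge_atTop j₁] with j hj
    obtain ⟨n, rfl⟩ := Nat.exists_eq_add_of_le hj
    refine ⟨_, LI_iter (p := p) (s := s) hMN hA hZ n, fun b => ?_⟩
    have := hpush κ (ε / 2) j₁ Z hZ' (ε / 2) hj₁ n b
    refine GG_mono this (by linarith)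
  -- choice of the level j₂
  obtain ⟨J, hJ⟩ := eventually_atTop.1 hnP
  obtain ⟨j₂, ⟨Y₀, hY₀, hY₀'⟩, hj₂, hJ₂⟩ := ((hQ (ε₀ / 2) (by linarith)).and_eventually
      ((hsmall (ε₀ / 2) (by linarith)).and (eventually_ge_atTop J))).exists
  have hrj : (0 : ℝ) < ((p ^ s : ℕ) : ℝ) ^ j₂ := by positivity
  refine ⟨σ * ((p ^ s : ℕ) : ℝ) ^ j₂, κ, fun j => (PhiM A (p ^ s))^[j] Y₀, by positivity, hκ1,
    ?_, fun j => LI_iter hMN hA hY₀ j, ?_⟩
  · intro j
    simp only [Function.iterate_succ_apply']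
    rfl
  intro ε hε
  have hm : 0 < min (ε / ((p ^ s : ℕ) : ℝ) ^ j₂) ε₀ := lt_min (by positivity) hε₀
  have htend : Tendsto (fun j : ℕ => j₂ + j) atTop atTop :=
    tendsto_atTop_mono (fun j => Nat.le_add_left j j₂) tendsto_id
  filter_upwards [htend.eventually (hev _ hm)] with j hj
  obtain ⟨Z, hZ, hZ'⟩ := hj
  have hdep : ∀ b : Fin κ, ¬ LI (Matrix.of fun i (c : Fin (κ + 1)) =>
      Fin.cons (α := fun _ => k[X]) (Z i b) (fun l => ((PhiM A (p ^ s))^[j] Y₀) i l) c) := by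
    intro b hLI
    apply hJ (j₂ + j) (by omega)
    refine ⟨_, hLI, ?_⟩
    intro c'
    induction c' using Fin.cases with
    | zero =>
      simp only [Matrix.of_apply, Fin.cons_zero]
      exact GG_mono (hZ' b) (min_le_right _ _)
    | succ l =>
      simp only [Matrix.of_apply, Fin.cons_succ]
      have := hpush κ (ε₀ / 2) j₂ Y₀ hY₀' (ε₀ / 2) hj₂ j l
      exact GG_mono this (by linarith)
  obtain ⟨a, Q, ha, hQd, haQ⟩ := exists_aQ (LI_iter hMN hA hY₀ j) hZ hdep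
  refine ⟨Z, a, Q, ha, hQd, haQ, fun b => ?_⟩
  apply GG_rescale (by omega)
  exact GG_mono (hZ' b) (min_le_left _ _)

end Pool.Agent.Helper51.FR.P8
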